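import Mathlib

/-!
The Brunn-Minkowski property fails for every proper nonzero complex subspace of `C^n`.

Strategy: complex ellipsoids. The projection of the ellipsoid with squared semi-axes `d` onto the
complex subspace `φ(E)` has volume `det (Nᴴ diag(d) N)` times the volume of the unit ball of `C^m`,
with `N` the matrix of `φ(E)`. The Minkowski sum of two ellipsoids lies in the ellipsoid
`(1+t) d + (1+1/t) b` for each `t > 0`. Letting all but `m-1` semi-axes tend to zero and comparing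
first order terms contradicts the Brunn-Minkowski inequality.
-/

open MeasureTheory Matrix Module
open scoped ENNReal Pointwise

namespace Pool.Agent.Results.MP_6cdc09_gt.ComplexSubspaces

/-- The unitary group is compact. -/
theorem compactU (n : ℕ) : CompactSpace (Matrix.unitaryGroup (Fin n) ℂ) := by
  have hK : IsCompact (Set.univ.pi fun _ : Fin n => Set.univ.pi fun _ : Fin n =>
      Metric.closedBall (0 : ℂ) 1) :=
    isCompact_univ_pi fun i => isCompact_univ_pi fun j => isCompact_closedBall 0 1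
  have hcl : IsClosed ((Matrix.unitaryGroup (Fin n) ℂ : Set (Matrix (Fin n) (Fin n) ℂ))) := by
    have h : ((Matrix.unitaryGroup (Fin n) ℂ : Set (Matrix (Fin n) (Fin n) ℂ)))
        = {A | A * star A = 1} := by
      ext A
      exact Matrix.mem_unitaryGroup_iff
    rw [h]
    refine isClosed_eq ?_ continuous_const
    exact continuous_id.mul (continuous_star)
  have hc : IsCompact ((Matrix.unitaryGroup (Fin n) ℂ : Set (Matrix (Fin n) (Fin n) ℂ))) := by
    refine IsCompact.of_isClosed_subset (s := Set.univ.pi fun _ : Fin n =>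
      Set.univ.pi fun _ : Fin n => Metric.closedBall (0 : ℂ) 1) hK hcl ?_
    intro A hA i _ j _
    rw [mem_closedBall_zero_iff]
    exact entry_norm_bound_of_unitary hA i j
  exact isCompact_iff_compactSpace.1 hc

/-- A unitary matrix sending a given orthonormal family to the first `m` basis vectors. -/
theorem exists_unitary {n m : ℕ} (hm : m ≤ n) (e : Fin m → EuclideanSpace ℂ (Fin n))
    (he : Orthonormal ℂ e) :
    ∃ φ : Matrix.unitaryGroup (Fin n) ℂ, ∀ j : Fin m,
      Matrix.toEuclideanLin (φ : Matrix (Fin n) (Fin n) ℂ) (e j) =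
        EuclideanSpace.single (Fin.castLE hm j) (1 : ℂ) := by
  classical
  let v : Fin n → EuclideanSpace ℂ (Fin n) := fun i => if h : i.val < m then e ⟨i.val, h⟩ else 0
  let s : Set (Fin n) := {i | i.val < m}
  have hv : Orthonormal ℂ (s.domRestrict v) := by
    have h1 : s.domRestrict v = e ∘ (fun i : s => (⟨i.1.val, i.2⟩ : Fin m)) := by
      funext i
      have : i.1.val < m := i.2
      simp [v, Set.domRestrict, this]
    rw [h1]
    refine he.comp _ ?_
    intro a b hab
    have h2 : (⟨a.1.val, a.2⟩ : Fin m) = ⟨b.1.val, b.2⟩ := hab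
    have : a.1.val = b.1.val := Fin.mk.inj_iff.1 h2
    exact Subtype.ext (Fin.ext this)
  obtain ⟨b, hb⟩ := hv.exists_orthonormalBasis_extension_of_card_eq
    (by simp : finrank ℂ (EuclideanSpace ℂ (Fin n)) = Fintype.card (Fin n))
  have hU := b.toMatrix_orthonormalBasis_mem_unitary (EuclideanSpace.basisFun (Fin n) ℂ)
  refine ⟨⟨_, hU⟩, fun j => ?_⟩
  have hlin : Matrix.toEuclideanLin (b.toBasis.toMatrix (EuclideanSpace.basisFun (Fin n) ℂ))
      = (b.repr.toLinearEquiv : EuclideanSpace ℂ (Fin n) →ₗ[ℂ] EuclideanSpace ℂ (Fin n)) := by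
    rw [Matrix.toEuclideanLin_eq_toLin_orthonormal]
    refine (EuclideanSpace.basisFun (Fin n) ℂ).toBasis.ext fun i => ?_
    rw [Matrix.toLin_self]
    ext k
    simp only [Basis.toMatrix_apply, EuclideanSpace.basisFun_apply, WithLp.ofLp_sum,
      WithLp.ofLp_smul, OrthonormalBasis.coe_toBasis_repr_apply, OrthonormalBasis.coe_toBasis,
      Finset.sum_apply, Pi.smul_apply, smul_eq_mul, LinearEquiv.coe_coe,
      LinearIsometryEquiv.coe_toLinearEquiv]
    rw [Finset.sum_eq_single k]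
    · simp
    · intro x _ hx
      simp [hx.symm]
    · simp
  have hej : e j = b (Fin.castLE hm j) := by
    rw [hb (Fin.castLE hm j) (by simp [s])]
    simp [v]
  show Matrix.toEuclideanLin (b.toBasis.toMatrix (EuclideanSpace.basisFun (Fin n) ℂ)) (e j) = _
  rw [hlin, hej]
  simp

/-! ### Definitions -/

/-- `C^n` with its hermitian inner product; as a real vector space its inner product is the real
part of the hermitian one. -/
abbrev Cn (n : ℕ) := EuclideanSpace ℂ (Fin n)

/-- The unitary group `U(n)`. -/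
abbrev Un (n : ℕ) := Matrix.unitaryGroup (Fin n) ℂ

noncomputable instance instMS (n : ℕ) : MeasurableSpace (Un n) := borel _

instance instBS (n : ℕ) : BorelSpace (Un n) := ⟨rfl⟩

instance instCompact (n : ℕ) : CompactSpace (Un n) := compactU n

/-- The Haar measure on `U(n)` of total mass one. -/
noncomputable def haarU (n : ℕ) : Measure (Un n) := Measure.haarMeasure ⊤

/-- The Lebesgue measure of a set in a finite dimensional real inner product space. -/
noncomputable def vol {F : Type} [NormedAddCommGroup F] [InnerProductSpace ℝ F]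
    [FiniteDimensional ℝ F] [MeasurableSpace F] [BorelSpace F] (S : Set F) : ℝ :=
  (volume S).toReal

/-- The orthogonal projection of a set `K` onto a subspace `F`, as a subset of `F`. -/
noncomputable def proj {W : Type} [NormedAddCommGroup W] [InnerProductSpace ℝ W]
    [FiniteDimensional ℝ W] (K : Set W) (F : Submodule ℝ W) : Set F :=
  F.orthogonalProjectionOnto '' K

/-- The Lebesgue measure, inside `F`, of the orthogonal projection of `K` onto `F`. -/
noncomputable def shadow {W : Type} [NormedAddCommGroup W] [InnerProductSpace ℝ W]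
    [MeasurableSpace W] [BorelSpace W] [FiniteDimensional ℝ W] (K : Set W)
    (F : Submodule ℝ W) : ℝ :=
  vol (proj K F)

/-- The action of a unitary matrix on a vector. -/
def actU {n : ℕ} (φ : Un n) (x : Cn n) : Cn n :=
  WithLp.toLp 2 ((φ : Matrix (Fin n) (Fin n) ℂ) *ᵥ x.ofLp)

/-- The image `φ(E)` of a real subspace under a unitary matrix. -/
noncomputable def imU {n : ℕ} (φ : Un n) (E : Submodule ℝ (Cn n)) : Submodule ℝ (Cn n) :=
  Submodule.span ℝ (actU φ '' (E : Set (Cn n)))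

/-- The functional `V_E(K)`: the Haar average of the volumes of the projections onto `φ(E)`. -/
noncomputable def V {n : ℕ} (E : Submodule ℝ (Cn n)) (K : Set (Cn n)) : ℝ :=
  ∫ φ : Un n, shadow K (imU φ E) ∂(haarU n)

/-- Convex bodies: compact convex sets with nonempty interior. -/
def IsBody {W : Type} [NormedAddCommGroup W] [InnerProductSpace ℝ W] (K : Set W) : Prop :=
  IsCompact K ∧ Convex ℝ K ∧ (interior K).Nonempty

/-- The inequality `a^(1/i) + b^(1/i) ≤ c^(1/i)`. -/
def BMineq (i : ℕ) (a b c : ℝ) : Prop :=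
  a ^ (1 / (i : ℝ)) + b ^ (1 / (i : ℝ)) ≤ c ^ (1 / (i : ℝ))

/-- The Brunn-Minkowski property of a real subspace of `C^n`. -/
def BM {n : ℕ} (E : Submodule ℝ (Cn n)) : Prop :=
  ∀ K L : Set (Cn n), IsBody K → IsBody L → BMineq (finrank ℝ E) (V E K) (V E L) (V E (K + L))

/-! ### Comparison with the linear algebra formulation -/

/-- The action of a unitary matrix on `C^n`, as a real linear map. -/
noncomputable def act {n : ℕ} (φ : Un n) : Cn n →ₗ[ℝ] Cn n :=
  (Matrix.toEuclideanLin (φ : Matrix (Fin n) (Fin n) ℂ)).restrictScalars ℝ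

theorem act_apply {n : ℕ} (φ : Un n) (x : Cn n) : act φ x = actU φ x := rfl

theorem imU_eq {n : ℕ} (φ : Un n) (E : Submodule ℝ (Cn n)) : imU φ E = E.map (act φ) := by
  have h : actU φ '' (E : Set (Cn n)) = ((E.map (act φ) : Submodule ℝ (Cn n)) : Set (Cn n)) := by
    rw [Submodule.map_coe]
    rfl
  unfold imU
  rw [h, Submodule.span_eq]

theorem mem_imU {n : ℕ} (φ : Un n) (E : Submodule ℝ (Cn n)) (y : Cn n) :
    y ∈ imU φ E ↔ ∃ x ∈ E, actU φ x = y := by
  rw [imU_eq, Submodule.mem_map]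
  rfl

theorem shadow_def {n : ℕ} (K : Set (Cn n)) (F : Submodule ℝ (Cn n)) :
    shadow K F = (volume (F.orthogonalProjectionOnto '' K)).toReal := rfl

theorem V_def {n : ℕ} (E : Submodule ℝ (Cn n)) (K : Set (Cn n)) :
    V E K = ∫ φ : Un n, shadow K (E.map (act φ)) ∂(haarU n) := by
  unfold V
  simp only [imU_eq]

/-! ### Auxiliary results -/

theorem lin_comp {ι κ μ : Type} [Fintype ι] [DecidableEq ι] [Fintype κ] [DecidableEq κ]
    (A : Matrix μ κ ℂ) (B : Matrix κ ι ℂ) (x : EuclideanSpace ℂ ι) :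
    Matrix.toEuclideanLin A (Matrix.toEuclideanLin B x) = Matrix.toEuclideanLin (A * B) x := by
  simp only [Matrix.toLpLin_apply, Matrix.mulVec_mulVec]

theorem lin_one {ι : Type} [Fintype ι] [DecidableEq ι] (x : EuclideanSpace ℂ ι) :
    Matrix.toEuclideanLin (1 : Matrix ι ι ℂ) x = x := by
  simp only [Matrix.toLpLin_apply, Matrix.one_mulVec]

theorem norm_adj {ι : Type} [Fintype ι] [DecidableEq ι] {m : ℕ}
    (U : Matrix (Fin m) ι ℂ) (hU : U * Uᴴ = 1) (z : EuclideanSpace ℂ (Fin m)) :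
    ‖Matrix.toEuclideanLin Uᴴ z‖ = ‖z‖ := by
  have h : inner ℂ (Matrix.toEuclideanLin Uᴴ z) (Matrix.toEuclideanLin Uᴴ z) = inner ℂ z z := by
    have e : Matrix.toEuclideanLin Uᴴ z = (Matrix.toEuclideanLin U).adjoint z := by
      rw [Matrix.toEuclideanLin_conjTranspose_eq_adjoint]
    calc inner ℂ (Matrix.toEuclideanLin Uᴴ z) (Matrix.toEuclideanLin Uᴴ z)
        = inner ℂ ((Matrix.toEuclideanLin U).adjoint z) (Matrix.toEuclideanLin Uᴴ z) := by
          rw [← e]
      _ = inner ℂ z z := by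
          rw [LinearMap.adjoint_inner_left, lin_comp, hU, lin_one]
  rw [inner_self_eq_norm_sq_to_K, inner_self_eq_norm_sq_to_K] at h
  have h2 : ‖Matrix.toEuclideanLin Uᴴ z‖ ^ 2 = ‖z‖ ^ 2 := by exact_mod_cast h
  exact (sq_eq_sq₀ (norm_nonneg _) (norm_nonneg _)).1 h2

theorem norm_contr {ι : Type} [Fintype ι] [DecidableEq ι] {m : ℕ}
    (U : Matrix (Fin m) ι ℂ) (hU : U * Uᴴ = 1) (x : EuclideanSpace ℂ ι) :
    ‖Matrix.toEuclideanLin U x‖ ≤ ‖x‖ := by
  have h : inner ℂ (Matrix.toEuclideanLin Uᴴ (Matrix.toEuclideanLin U x)) x =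
      inner ℂ (Matrix.toEuclideanLin U x) (Matrix.toEuclideanLin U x) := by
    rw [Matrix.toEuclideanLin_conjTranspose_eq_adjoint, LinearMap.adjoint_inner_left]
  have h1 := norm_inner_le_norm (𝕜 := ℂ) (Matrix.toEuclideanLin Uᴴ (Matrix.toEuclideanLin U x)) x
  rw [h, norm_adj U hU, inner_self_eq_norm_sq_to_K] at h1
  have h2 : ‖Matrix.toEuclideanLin U x‖ ^ 2 ≤ ‖Matrix.toEuclideanLin U x‖ * ‖x‖ := by
    simpa using h1
  by_cases h0 : ‖Matrix.toEuclideanLin U x‖ = 0
  · rw [h0]; exact norm_nonneg _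
  · have hpos : 0 < ‖Matrix.toEuclideanLin U x‖ := lt_of_le_of_ne (norm_nonneg _) (Ne.symm h0)
    nlinarith

theorem image_eq {ι : Type} [Fintype ι] [DecidableEq ι] {m : ℕ}
    (M : Matrix (Fin m) ι ℂ) (S : Matrix (Fin m) (Fin m) ℂ) (hS : IsUnit S.det)
    (h : S * Sᴴ = M * Mᴴ) :
    (Matrix.toEuclideanLin M) '' Metric.closedBall (0 : EuclideanSpace ℂ ι) 1 =
      (Matrix.toEuclideanLin S) '' Metric.closedBall (0 : EuclideanSpace ℂ (Fin m)) 1 := by
  set U : Matrix (Fin m) ι ℂ := S⁻¹ * M with hUdef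
  have hU : U * Uᴴ = 1 := by
    rw [hUdef, conjTranspose_mul]
    calc S⁻¹ * M * (Mᴴ * S⁻¹ᴴ) = S⁻¹ * (M * Mᴴ) * S⁻¹ᴴ := by simp only [Matrix.mul_assoc]
      _ = S⁻¹ * (S * Sᴴ) * S⁻¹ᴴ := by rw [h]
      _ = (S⁻¹ * S) * (Sᴴ * S⁻¹ᴴ) := by simp only [Matrix.mul_assoc]
      _ = 1 := by
        rw [Matrix.nonsing_inv_mul _ hS, ← conjTranspose_mul, Matrix.nonsing_inv_mul _ hS,
          conjTranspose_one, Matrix.one_mul]
  have hSU : S * U = M := by
    rw [hUdef, ← Matrix.mul_assoc, Matrix.mul_nonsing_inv _ hS, Matrix.one_mul]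
  apply Set.Subset.antisymm
  · rintro _ ⟨x, hx, rfl⟩
    refine ⟨Matrix.toEuclideanLin U x, ?_, ?_⟩
    · rw [mem_closedBall_zero_iff] at hx ⊢
      exact (norm_contr U hU x).trans hx
    · rw [lin_comp, hSU]
  · rintro _ ⟨z, hz, rfl⟩
    refine ⟨Matrix.toEuclideanLin Uᴴ z, ?_, ?_⟩
    · rw [mem_closedBall_zero_iff] at hz ⊢
      rw [norm_adj U hU]
      exact hz
    · have e : M * Uᴴ = S := by rw [← hSU, Matrix.mul_assoc, hU, Matrix.mul_one]
      rw [lin_comp, e]

open scoped MatrixOrder ComplexOrder in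
theorem exists_sqrt {ι : Type} [Fintype ι] [DecidableEq ι] {m : ℕ}
    (M : Matrix (Fin m) ι ℂ) :
    ∃ S : Matrix (Fin m) (Fin m) ℂ, S * Sᴴ = M * Mᴴ := by
  have hA : (M * Mᴴ).PosSemidef := posSemidef_self_mul_conjTranspose M
  obtain ⟨B, hB⟩ := CStarAlgebra.nonneg_iff_eq_star_mul_self.mp hA.nonneg
  exact ⟨Bᴴ, by rw [hB, conjTranspose_conjTranspose]; rfl⟩

open scoped ComplexOrder in
theorem not_onto {ι : Type} [Fintype ι] [DecidableEq ι] {m : ℕ}
    (M : Matrix (Fin m) ι ℂ) (hdet : (M * Mᴴ).det = 0) (h : ∀ v, ∃ x, M *ᵥ x = v) : False := by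
  obtain ⟨v, hv0, hv⟩ := Matrix.exists_mulVec_eq_zero_iff.2 hdet
  rw [Matrix.self_mul_conjTranspose_mulVec_eq_zero] at hv
  obtain ⟨x, hx⟩ := h v
  have h0 : star v ⬝ᵥ (M *ᵥ x) = 0 := by
    rw [dotProduct_mulVec]
    have : star v ᵥ* M = 0 := by
      have := congrArg star hv
      rw [star_mulVec, conjTranspose_conjTranspose] at this
      simpa using this
    rw [this, zero_dotProduct]
  rw [hx] at h0
  exact hv0 (dotProduct_star_self_eq_zero.1 h0)

theorem vol_square {m : ℕ} (S : Matrix (Fin m) (Fin m) ℂ) :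
    volume ((Matrix.toEuclideanLin S) '' Metric.closedBall (0 : EuclideanSpace ℂ (Fin m)) 1) =
      ENNReal.ofReal ((S * Sᴴ).det.re) *
        volume (Metric.closedBall (0 : EuclideanSpace ℂ (Fin m)) 1) := by
  have h1 := Measure.addHaar_image_linearMap (volume : Measure (EuclideanSpace ℂ (Fin m)))
    ((Matrix.toEuclideanLin S).restrictScalars ℝ)
    (Metric.closedBall (0 : EuclideanSpace ℂ (Fin m)) 1)
  have h2 : LinearMap.det ((Matrix.toEuclideanLin S).restrictScalars ℝ) =
      (S * Sᴴ).det.re := by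
    rw [LinearMap.det_restrictScalars, Algebra.norm_complex_apply]
    have h3 : LinearMap.det (Matrix.toEuclideanLin S) = S.det := by
      have e : Matrix.toEuclideanLin S =
          Matrix.toLin (PiLp.basisFun 2 ℂ (Fin m)) (PiLp.basisFun 2 ℂ (Fin m)) S := rfl
      rw [e, LinearMap.det_toLin]
    rw [h3, det_mul, det_conjTranspose, Complex.star_def, Complex.mul_conj, Complex.ofReal_re]
  rw [h2] at h1
  have h4 : 0 ≤ (S * Sᴴ).det.re := by
    rw [det_mul, det_conjTranspose, Complex.star_def, Complex.mul_conj, Complex.ofReal_re]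
    exact Complex.normSq_nonneg _
  rw [abs_of_nonneg h4] at h1
  exact h1

/-- Volume of the image of the complex unit ball under a complex linear map to `ℂ^m`. -/
theorem vol_image {ι : Type} [Fintype ι] [DecidableEq ι] {m : ℕ}
    (M : Matrix (Fin m) ι ℂ) :
    volume ((Matrix.toEuclideanLin M) '' Metric.closedBall (0 : EuclideanSpace ℂ ι) 1) =
      ENNReal.ofReal ((M * Mᴴ).det.re) *
        volume (Metric.closedBall (0 : EuclideanSpace ℂ (Fin m)) 1) := by
  by_cases hdet : (M * Mᴴ).det = 0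
  · rw [hdet, Complex.zero_re, ENNReal.ofReal_zero, zero_mul]
    set W : Submodule ℝ (EuclideanSpace ℂ (Fin m)) :=
      (LinearMap.range (Matrix.toEuclideanLin M)).restrictScalars ℝ with hW
    have hW1 : W ≠ ⊤ := by
      intro htop
      refine not_onto M hdet fun v => ?_
      have hmem : (WithLp.toLp 2 v : EuclideanSpace ℂ (Fin m)) ∈ W := by
        rw [htop]; trivial
      obtain ⟨x, hx⟩ := hmem
      exact ⟨x.ofLp, by
        have := congrArg WithLp.ofLp hx
        simpa [Matrix.ofLp_toLpLin] using this⟩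
    have hsub : (Matrix.toEuclideanLin M) '' Metric.closedBall (0 : EuclideanSpace ℂ ι) 1 ⊆
        (W : Set (EuclideanSpace ℂ (Fin m))) := by
      rintro _ ⟨x, _, rfl⟩
      exact ⟨x, rfl⟩
    exact measure_mono_null hsub (Measure.addHaar_submodule _ W hW1)
  · obtain ⟨S, hS⟩ := exists_sqrt M
    have hSdet : IsUnit S.det := by
      rw [isUnit_iff_ne_zero]
      intro h0
      apply hdet
      rw [← hS, det_mul, h0, zero_mul]
    rw [image_eq M S hSdet hS, vol_square S, hS]

lemma sh_re {n : ℕ} (x y : EuclideanSpace ℂ (Fin n)) :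
    inner ℝ x y = (inner ℂ x y).re := by
  simp [PiLp.inner_apply]

lemma sh_im {n : ℕ} (x y : EuclideanSpace ℂ (Fin n)) :
    inner ℝ (Complex.I • x) y = (inner ℂ x y).im := by
  rw [sh_re, inner_smul_left]; simp

/-- the coordinate isometry, over the reals -/
noncomputable def shL {n m : ℕ} (F : Submodule ℂ (EuclideanSpace ℂ (Fin n)))
    (e : OrthonormalBasis (Fin m) ℂ F) :
    (F.restrictScalars ℝ) ≃ₗᵢ[ℝ] EuclideanSpace ℂ (Fin m) where
  toFun := fun x => e.repr (⟨x.1, x.2⟩ : F)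
  invFun := fun y => ⟨(e.repr.symm y : F).1, (e.repr.symm y : F).2⟩
  left_inv := fun x => by
    apply Subtype.ext
    simp
  right_inv := fun y => by
    simp
  map_add' := fun x y => by
    rw [← map_add]; rfl
  map_smul' := fun c x => by
    have h : (⟨(c • x).1, (c • x).2⟩ : F) = (c : ℂ) • (⟨x.1, x.2⟩ : F) := by
      apply Subtype.ext
      change c • x.1 = (c : ℂ) • x.1
      simp
    rw [h, map_smul]
    simp
  norm_map' := fun x => by
    change ‖e.repr (⟨x.1, x.2⟩ : F)‖ = _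
    rw [LinearIsometryEquiv.norm_map]
    rfl

lemma shL_proj {n m : ℕ} (F : Submodule ℂ (EuclideanSpace ℂ (Fin n)))
    (e : OrthonormalBasis (Fin m) ℂ F) (x : EuclideanSpace ℂ (Fin n)) :
    shL F e ((F.restrictScalars ℝ).orthogonalProjectionOnto x) =
      WithLp.toLp 2 (fun j : Fin m => inner ℂ ((e j : F) : EuclideanSpace ℂ (Fin n)) x) := by
  ext j
  set p := (F.restrictScalars ℝ).orthogonalProjectionOnto x with hp
  have h1 : shL F e p j = inner ℂ ((e j : F) : EuclideanSpace ℂ (Fin n)) p.1 := by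
    change (e.repr (⟨p.1, p.2⟩ : F)) j = _
    rw [OrthonormalBasis.repr_apply_apply]
    rfl
  rw [h1]
  have key : ∀ u : EuclideanSpace ℂ (Fin n), u ∈ F → inner ℝ u p.1 = inner ℝ u x := by
    intro u hu
    have := Submodule.inner_orthogonalProjectionOnto_eq_of_mem_left (K := F.restrictScalars ℝ) ⟨u, hu⟩ x
    exact this
  apply Complex.ext
  · rw [← sh_re]
    change _ = (inner ℂ ((e j : F) : EuclideanSpace ℂ (Fin n)) x).re
    rw [← sh_re]
    exact key _ (e j).2
  · rw [← sh_im]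
    change _ = (inner ℂ ((e j : F) : EuclideanSpace ℂ (Fin n)) x).im
    rw [← sh_im]
    exact key _ (F.smul_mem _ (e j).2)

/-- The volume of the orthogonal projection of `K` to a complex subspace (seen as a real subspace)
equals the volume of the set of coordinate vectors `(⟪e_j, x⟫)_j`, `x ∈ K`. -/
theorem shadow_eq {n m : ℕ} (F : Submodule ℂ (EuclideanSpace ℂ (Fin n)))
    (e : OrthonormalBasis (Fin m) ℂ F) (K : Set (EuclideanSpace ℂ (Fin n))) :
    volume ((F.restrictScalars ℝ).orthogonalProjectionOnto '' K) =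
      volume ((fun x : EuclideanSpace ℂ (Fin n) =>
        (WithLp.toLp 2 (fun j : Fin m => inner ℂ ((e j : F) : EuclideanSpace ℂ (Fin n)) x) :
          EuclideanSpace ℂ (Fin m))) '' K) := by
  have h1 : (fun x : EuclideanSpace ℂ (Fin n) =>
        (WithLp.toLp 2 (fun j : Fin m => inner ℂ ((e j : F) : EuclideanSpace ℂ (Fin n)) x) :
          EuclideanSpace ℂ (Fin m))) '' K =
      shL F e '' ((F.restrictScalars ℝ).orthogonalProjectionOnto '' K) := by
    rw [Set.image_image]
    apply Set.image_congr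
    intro x _
    exact (shL_proj F e x).symm
  rw [h1]
  have h2 := LinearIsometryEquiv.measurePreserving (E := ↥(F.restrictScalars ℝ))
      (F := EuclideanSpace ℂ (Fin m)) (shL F e)
  have h3 := MeasurePreserving.measure_preimage_equiv
    (f := (shL F e).toHomeomorph.toMeasurableEquiv) h2
    (shL F e '' ((F.restrictScalars ℝ).orthogonalProjectionOnto '' K))
  rw [← h3]
  congr 1
  exact (Set.preimage_image_eq _ (shL F e).injective).symm

/-- Soft limit argument. -/
theorem limit {X : Type} [TopologicalSpace X] [CompactSpace X] [MeasurableSpace X]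
    [BorelSpace X] (μ : Measure X) [IsProbabilityMeasure μ] [μ.IsOpenPosMeasure] (c : ℝ)
    (f g h : ℝ × X → ℝ) (hf : Continuous f) (hg : Continuous g) (hh : Continuous h)
    (H : ∀ ε : ℝ, 0 < ε → ε ≤ 1 →
      c * ∫ x, f (ε, x) ∂μ ≤ ∫ x, min (g (ε, x)) (h (ε, x)) ∂μ)
    (H0 : ∫ x, g (0, x) ∂μ = c * ∫ x, f (0, x) ∂μ) (x : X) : g (0, x) ≤ h (0, x) := by
  
  have hc : ∀ F : ℝ × X → ℝ, Continuous F → Continuous (fun ε : ℝ => ∫ x, F (ε, x) ∂μ) := by
    intro F hF
    have h1 := continuous_parametric_integral_of_continuous (μ := μ)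
      (f := fun (ε : ℝ) (x : X) => F (ε, x)) hF (isCompact_univ (X := X))
    simpa only [Measure.restrict_univ] using h1
  have hm : Continuous (fun p : ℝ × X => min (g p) (h p)) := hg.min hh
  have hi : ∀ F : ℝ × X → ℝ, Continuous F → ∀ ε : ℝ, Integrable (fun x => F (ε, x)) μ := by
    intro F hF ε
    have h1 : Continuous (fun x => F (ε, x)) := hF.comp (by fun_prop)
    exact h1.integrable_of_hasCompactSupport (HasCompactSupport.of_compactSpace _)
  have hlim : c * ∫ x, f (0, x) ∂μ ≤ ∫ x, min (g (0, x)) (h (0, x)) ∂μ := by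
    have t1 : Filter.Tendsto (fun ε : ℝ => c * ∫ x, f (ε, x) ∂μ) (nhdsWithin 0 (Set.Ioi 0))
        (nhds (c * ∫ x, f (0, x) ∂μ)) :=
      (((hc f hf).const_mul c).tendsto 0).mono_left nhdsWithin_le_nhds
    have t2 : Filter.Tendsto (fun ε : ℝ => ∫ x, min (g (ε, x)) (h (ε, x)) ∂μ)
        (nhdsWithin 0 (Set.Ioi 0)) (nhds (∫ x, min (g (0, x)) (h (0, x)) ∂μ)) :=
      ((hc _ hm).tendsto 0).mono_left nhdsWithin_le_nhds
    refine le_of_tendsto_of_tendsto t1 t2 ?_
    filter_upwards [Ioc_mem_nhdsGT (show (0:ℝ) < 1 by norm_num)] with ε hε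
    exact H ε hε.1 hε.2
  have hint : ∫ x, (g (0, x) - min (g (0, x)) (h (0, x))) ∂μ = 0 := by
    have i1 := hi g hg 0
    have i2 := hi _ hm 0
    have h1 : ∫ x, min (g (0, x)) (h (0, x)) ∂μ ≤ ∫ x, g (0, x) ∂μ :=
      integral_mono i2 i1 fun x => min_le_left _ _
    rw [integral_sub i1 i2]
    linarith
  have hcont : Continuous (fun x => g (0, x) - min (g (0, x)) (h (0, x))) := by
    have a1 : Continuous (fun x => g (0, x)) := hg.comp (by fun_prop)
    have a2 : Continuous (fun x => h (0, x)) := hh.comp (by fun_prop)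
    exact a1.sub (a1.min a2)
  have hz : (fun x => g (0, x) - min (g (0, x)) (h (0, x))) = fun _ => (0:ℝ) := by
    rw [← Continuous.ae_eq_iff_eq μ hcont continuous_const]
    exact (integral_eq_zero_iff_of_nonneg
      (fun x => sub_nonneg.2 (min_le_left _ _)) ((hi g hg 0).sub (hi _ hm 0))).1 hint
  have := congrFun hz x
  have h2 : g (0, x) = min (g (0, x)) (h (0, x)) := by linarith
  rw [h2]
  exact min_le_right _ _

/-- the matrix with rows from `Q` in `S` and from `P` outside -/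
def det_expand_pw {m : ℕ} (S : Finset (Fin m)) (P Q : Matrix (Fin m) (Fin m) ℂ) :
    Matrix (Fin m) (Fin m) ℂ := fun i j => if i ∈ S then Q i j else P i j

theorem det_expand_sum {m : ℕ} (ε : ℝ) (P Q : Matrix (Fin m) (Fin m) ℂ) :
    (P + (ε : ℂ) • Q).det =
      ∑ S : Finset (Fin m), (ε : ℂ) ^ S.card * (det_expand_pw S P Q).det := by
  have h := (Matrix.detRowAlternating (n := Fin m) (R := ℂ)).toMultilinearMap.map_add_univ
    (fun i => (ε : ℂ) • Q i) (fun i => P i)
  have e0 : (P + (ε : ℂ) • Q).det = (Matrix.detRowAlternating (n := Fin m) (R := ℂ)).toMultilinearMap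
      ((fun i => (ε : ℂ) • Q i) + fun i => P i) := by
    show _ = Matrix.det _
    congr 1
    ext i j
    simp [add_comm]
  rw [e0, h]
  refine Finset.sum_congr rfl fun S _ => ?_
  have h2 := (Matrix.detRowAlternating (n := Fin m) (R := ℂ)).toMultilinearMap.map_piecewise_smul
    (fun _ => (ε : ℂ)) (det_expand_pw S P Q) S
  rw [Finset.prod_const] at h2
  have e1 : S.piecewise (fun i => (ε : ℂ) • Q i) (fun i => P i) =
      S.piecewise (fun i => (ε : ℂ) • (det_expand_pw S P Q) i) (det_expand_pw S P Q) := by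
    funext i
    by_cases hi : i ∈ S
    · rw [Finset.piecewise_eq_of_mem _ _ _ hi, Finset.piecewise_eq_of_mem _ _ _ hi]
      funext j
      simp [det_expand_pw, hi]
    · rw [Finset.piecewise_eq_of_notMem _ _ _ hi, Finset.piecewise_eq_of_notMem _ _ _ hi]
      funext j
      simp [det_expand_pw, hi]
  rw [e1, h2]
  rfl

/-- Expansion of `det (P + ε Q)` with a jointly continuous remainder. -/
theorem det_expand (m : ℕ) :
    ∃ F : ℝ × Matrix (Fin m) (Fin m) ℂ × Matrix (Fin m) (Fin m) ℂ → ℂ, Continuous F ∧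
      (∀ (ε : ℝ) (P Q : Matrix (Fin m) (Fin m) ℂ),
        (P + (ε : ℂ) • Q).det = P.det + (ε : ℂ) * F (ε, P, Q)) ∧
      (∀ P Q : Matrix (Fin m) (Fin m) ℂ, F (0, P, Q) = ∑ i, (P.updateRow i (Q i)).det) := by
  refine ⟨fun x => ∑ S ∈ (Finset.univ : Finset (Finset (Fin m))).erase ∅,
    (x.1 : ℂ) ^ (S.card - 1) * (det_expand_pw S x.2.1 x.2.2).det, ?_, ?_, ?_⟩
  · refine continuous_finsetSum _ fun S _ => ?_
    refine Continuous.mul ((Complex.continuous_ofReal.comp continuous_fst).pow _) ?_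
    refine Continuous.matrix_det ?_
    refine continuous_pi fun i => continuous_pi fun j => ?_
    unfold det_expand_pw
    by_cases hi : i ∈ S
    · simp only [hi, if_true]
      exact (continuous_apply_apply i j).comp (continuous_snd.comp continuous_snd)
    · simp only [hi, if_false]
      exact (continuous_apply_apply i j).comp (continuous_fst.comp continuous_snd)
  · intro ε P Q
    rw [det_expand_sum, ← Finset.add_sum_erase _ _ (Finset.mem_univ (∅ : Finset (Fin m))),
      Finset.mul_sum]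
    congr 1
    · rw [Finset.card_empty, pow_zero, one_mul]
      congr 1
    · refine Finset.sum_congr rfl fun S hS => ?_
      have hS' : S ≠ ∅ := Finset.ne_of_mem_erase hS
      have hc : S.card = (S.card - 1) + 1 := by
        have := Finset.card_pos.2 (Finset.nonempty_iff_ne_empty.2 hS')
        omega
      conv_lhs => rw [hc, pow_succ]
      ring
  · intro P Q
    have h1 : ∑ i, (P.updateRow i (Q i)).det =
        ∑ S ∈ (Finset.univ : Finset (Fin m)).powersetCard 1, (det_expand_pw S P Q).det := by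
      rw [Finset.powersetCard_one, Finset.sum_map]
      refine Finset.sum_congr rfl fun i _ => ?_
      congr 1
      ext a b
      simp only [det_expand_pw, Function.Embedding.coeFn_mk, Finset.mem_singleton,
        Matrix.updateRow_apply]
      by_cases hab : a = i
      · subst hab; simp
      · simp [hab]
    rw [h1]
    symm
    have hsub : (Finset.univ : Finset (Fin m)).powersetCard 1 ⊆
        (Finset.univ : Finset (Finset (Fin m))).erase ∅ := by
      intro S hS
      rw [Finset.mem_powersetCard] at hS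
      refine Finset.mem_erase.2 ⟨?_, Finset.mem_univ _⟩
      rintro rfl
      simp at hS
    have h2 : ∑ S ∈ (Finset.univ : Finset (Fin m)).powersetCard 1, (det_expand_pw S P Q).det =
        ∑ S ∈ (Finset.univ : Finset (Fin m)).powersetCard 1,
          (((0 : ℝ) : ℂ)) ^ (S.card - 1) * (det_expand_pw S P Q).det := by
      refine Finset.sum_congr rfl fun S hS => ?_
      rw [Finset.mem_powersetCard] at hS
      rw [hS.2]
      simp
    rw [h2]
    refine Finset.sum_subset hsub ?_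
    intro S hS hS'
    have hc : S.card ≠ 1 := by
      intro hc
      exact hS' (Finset.mem_powersetCard.2 ⟨Finset.subset_univ _, hc⟩)
    have hc0 : S.card ≠ 0 := by
      intro hc0
      exact Finset.ne_of_mem_erase hS (Finset.card_eq_zero.1 hc0)
    have hc1 : S.card - 1 ≠ 0 := by omega
    simp [hc1]

/-- Homogeneity in the first matrix. -/
theorem updateRow_smul {m : ℕ} (p : ℂ) (hp : p ≠ 0) (P Q : Matrix (Fin m) (Fin m) ℂ) :
    ∑ i, ((p • P).updateRow i (Q i)).det = p ^ (m - 1) * ∑ i, (P.updateRow i (Q i)).det := by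
  rw [Finset.mul_sum]
  refine Finset.sum_congr rfl fun i _ => ?_
  have hm : m = (m - 1) + 1 := by
    have := i.pos
    omega
  have e : (p • P).updateRow i (Q i) = p • (P.updateRow i (p⁻¹ • Q i)) := by
    ext a b
    by_cases hab : a = i
    · subst hab
      simp [hp]
    · simp [Matrix.updateRow_apply, hab]
  rw [e, Matrix.det_smul, Matrix.det_updateRow_smul, Fintype.card_fin]
  have hpm : p ^ m = p ^ (m - 1) * p := by
    conv_lhs => rw [hm, pow_succ]
  rw [hpm]
  field_simp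

/-- Linearity in the second matrix. -/
theorem updateRow_lin {m : ℕ} (r s : ℂ) (P Q R : Matrix (Fin m) (Fin m) ℂ) :
    ∑ i, (P.updateRow i ((r • Q + s • R) i)).det =
      r * ∑ i, (P.updateRow i (Q i)).det + s * ∑ i, (P.updateRow i (R i)).det := by
  rw [Finset.mul_sum, Finset.mul_sum, ← Finset.sum_add_distrib]
  refine Finset.sum_congr rfl fun i _ => ?_
  have e : (r • Q + s • R) i = r • Q i + s • R i := rfl
  rw [e, Matrix.det_updateRow_add, Matrix.det_updateRow_smul, Matrix.det_updateRow_smul]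

/-- The complex ellipsoid with squared semi-axes `d k`. -/
noncomputable def ell {n : ℕ} (d : Fin n → ℝ) : Set (EuclideanSpace ℂ (Fin n)) :=
  Matrix.toEuclideanLin (Matrix.diagonal (fun k => ((Real.sqrt (d k) : ℝ) : ℂ))) ''
    Metric.closedBall 0 1

theorem aux_apply {n : ℕ} (c : Fin n → ℂ) (x : EuclideanSpace ℂ (Fin n)) (k : Fin n) :
    Matrix.toEuclideanLin (Matrix.diagonal c) x k = c k * x k := by
  rw [Matrix.toLpLin_apply]
  simp [Matrix.mulVec_diagonal]

theorem ell_body {n : ℕ} (d : Fin n → ℝ) (hd : ∀ k, 0 < d k) :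
    IsCompact (ell d) ∧ Convex ℝ (ell d) ∧ (interior (ell d)).Nonempty := by
  have hcont : ∀ c : Fin n → ℂ, Continuous (Matrix.toEuclideanLin (Matrix.diagonal c)) := fun c =>
    LinearMap.continuous_of_finiteDimensional _
  refine ⟨(isCompact_closedBall _ _).image (hcont _), ?_, ?_⟩
  · exact (convex_closedBall (0 : EuclideanSpace ℂ (Fin n)) 1).linear_image
      ((Matrix.toEuclideanLin (Matrix.diagonal (fun k => ((Real.sqrt (d k) : ℝ) : ℂ)))).restrictScalars ℝ)
  · refine ⟨0, mem_interior.2 ⟨(Matrix.toEuclideanLin (Matrix.diagonal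
      (fun k => (((Real.sqrt (d k))⁻¹ : ℝ) : ℂ)))) ⁻¹' Metric.ball 0 1, ?_,
      Metric.isOpen_ball.preimage (hcont _), ?_⟩⟩
    · intro x hx
      refine ⟨_, Metric.ball_subset_closedBall hx, ?_⟩
      ext k
      rw [aux_apply, aux_apply, ← mul_assoc, ← Complex.ofReal_mul,
        mul_inv_cancel₀ (Real.sqrt_pos.2 (hd k)).ne', Complex.ofReal_one, one_mul]
    · rw [Set.mem_preimage, map_zero]
      exact Metric.mem_ball_self one_pos

theorem ell_add {n : ℕ} (d b : Fin n → ℝ) (hd : ∀ k, 0 < d k) (hb : ∀ k, 0 < b k)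
    (t : ℝ) (ht : 0 < t) :
    ell d + ell b ⊆ ell (fun k => (1 + t) * d k + (1 + 1 / t) * b k) := by
  intro z hz
  obtain ⟨x, ⟨u, hu, rfl⟩, y, ⟨v, hv, rfl⟩, rfl⟩ := Set.mem_add.1 hz
  have hc : ∀ k, 0 < (1 + t) * d k + (1 + 1 / t) * b k := fun k => by
    have := hd k
    have := hb k
    positivity
  refine ⟨WithLp.toLp 2 fun k => (((Real.sqrt ((1 + t) * d k + (1 + 1 / t) * b k))⁻¹ : ℝ) : ℂ) *
    (((Real.sqrt (d k) : ℝ) : ℂ) * u k + ((Real.sqrt (b k) : ℝ) : ℂ) * v k), ?_, ?_⟩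
  · rw [mem_closedBall_zero_iff] at hu hv ⊢
    have hu2 : ∑ k, ‖u k‖ ^ 2 ≤ 1 := by
      rw [← EuclideanSpace.norm_sq_eq]
      exact pow_le_one₀ (norm_nonneg _) hu
    have hv2 : ∑ k, ‖v k‖ ^ 2 ≤ 1 := by
      rw [← EuclideanSpace.norm_sq_eq]
      exact pow_le_one₀ (norm_nonneg _) hv
    have h1 : ∀ k, ‖(((Real.sqrt ((1 + t) * d k + (1 + 1 / t) * b k))⁻¹ : ℝ) : ℂ) *
        (((Real.sqrt (d k) : ℝ) : ℂ) * u k + ((Real.sqrt (b k) : ℝ) : ℂ) * v k)‖ ^ 2 ≤
        (‖u k‖ ^ 2 + t * ‖v k‖ ^ 2) / (1 + t) := by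
      intro k
      have e1 : ‖((Real.sqrt (d k) : ℝ) : ℂ) * u k + ((Real.sqrt (b k) : ℝ) : ℂ) * v k‖ ≤
          Real.sqrt (d k) * ‖u k‖ + Real.sqrt (b k) * ‖v k‖ := by
        refine (norm_add_le _ _).trans (le_of_eq ?_)
        rw [norm_mul, norm_mul, Complex.norm_real, Complex.norm_real, Real.norm_eq_abs,
          Real.norm_eq_abs, abs_of_nonneg (Real.sqrt_nonneg _), abs_of_nonneg (Real.sqrt_nonneg _)]
      rw [norm_mul, Complex.norm_real, Real.norm_eq_abs, abs_of_nonneg (by positivity), mul_pow,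
        inv_pow, Real.sq_sqrt (hc k).le]
      have e2 : ‖((Real.sqrt (d k) : ℝ) : ℂ) * u k + ((Real.sqrt (b k) : ℝ) : ℂ) * v k‖ ^ 2 ≤
          (Real.sqrt (d k) * ‖u k‖ + Real.sqrt (b k) * ‖v k‖) ^ 2 :=
        pow_le_pow_left₀ (norm_nonneg _) e1 2
      have e3 : (Real.sqrt (d k) * ‖u k‖ + Real.sqrt (b k) * ‖v k‖) ^ 2 ≤
          (d k + b k / t) * (‖u k‖ ^ 2 + t * ‖v k‖ ^ 2) := by
        have hp := Real.sq_sqrt (hd k).le
        have hq := Real.sq_sqrt (hb k).le
        set p := Real.sqrt (d k)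
        set q := Real.sqrt (b k)
        rw [← hp, ← hq]
        have e4 : (p ^ 2 + q ^ 2 / t) * (‖u k‖ ^ 2 + t * ‖v k‖ ^ 2) - (p * ‖u k‖ + q * ‖v k‖) ^ 2 =
            (t * p * ‖v k‖ - q * ‖u k‖) ^ 2 / t := by
          field_simp
          ring
        have e5 : 0 ≤ (t * p * ‖v k‖ - q * ‖u k‖) ^ 2 / t := by positivity
        linarith
      have e6 : (1 + t) * d k + (1 + 1 / t) * b k = (1 + t) * (d k + b k / t) := by
        field_simp
        ring
      have e7 : 0 < d k + b k / t := by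
        have := hd k
        have := hb k
        positivity
      rw [e6, inv_mul_le_iff₀ (by positivity)]
      refine (e2.trans e3).trans (le_of_eq ?_)
      field_simp
    have h2 : ‖(WithLp.toLp 2 fun k => (((Real.sqrt ((1 + t) * d k + (1 + 1 / t) * b k))⁻¹ : ℝ) : ℂ) *
        (((Real.sqrt (d k) : ℝ) : ℂ) * u k + ((Real.sqrt (b k) : ℝ) : ℂ) * v k) :
        EuclideanSpace ℂ (Fin n))‖ ^ 2 ≤ 1 := by
      rw [EuclideanSpace.norm_sq_eq]
      refine (Finset.sum_le_sum fun k _ => h1 k).trans ?_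
      rw [← Finset.sum_div, Finset.sum_add_distrib, ← Finset.mul_sum, div_le_one (by linarith)]
      nlinarith
    exact (sq_le_one_iff₀ (norm_nonneg _)).1 h2
  · ext k
    rw [aux_apply]
    show _ = Matrix.toEuclideanLin (Matrix.diagonal fun k => ((Real.sqrt (d k) : ℝ) : ℂ)) u k +
      Matrix.toEuclideanLin (Matrix.diagonal fun k => ((Real.sqrt (b k) : ℝ) : ℂ)) v k
    rw [aux_apply, aux_apply]
    show ((Real.sqrt ((1 + t) * d k + (1 + 1 / t) * b k) : ℝ) : ℂ) *
      ((((Real.sqrt ((1 + t) * d k + (1 + 1 / t) * b k))⁻¹ : ℝ) : ℂ) *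
      (((Real.sqrt (d k) : ℝ) : ℂ) * u k + ((Real.sqrt (b k) : ℝ) : ℂ) * v k)) = _
    rw [← mul_assoc, ← Complex.ofReal_mul, mul_inv_cancel₀ (Real.sqrt_pos.2 (hc k)).ne',
      Complex.ofReal_one, one_mul]

/-- `Nᴴ diag(d) N` for a matrix `N` (here `N = φ * E`). -/
noncomputable def Z {n m : ℕ} (N : Matrix (Fin n) (Fin m) ℂ) (d : Fin n → ℝ) :
    Matrix (Fin m) (Fin m) ℂ :=
  Nᴴ * Matrix.diagonal (fun k => ((d k : ℝ) : ℂ)) * N

/-- The degenerate part has zero determinant. -/
theorem Z_det_zero {n m : ℕ} (hm : 1 ≤ m) (N : Matrix (Fin n) (Fin m) ℂ) :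
    (Z N (fun k => if k.val < m - 1 then 1 else 0)).det = 0 := by
  classical
  by_contra hdet
  have hu : IsUnit (Z N (fun k => if k.val < m - 1 then 1 else 0)) :=
    (Matrix.isUnit_iff_isUnit_det _).mpr (isUnit_iff_ne_zero.mpr hdet)
  have h1 := Matrix.rank_of_isUnit _ hu
  rw [Fintype.card_fin] at h1
  have h2 : (Z N (fun k => if k.val < m - 1 then 1 else 0)).rank ≤
      (Matrix.diagonal (fun k : Fin n => (((if k.val < m - 1 then 1 else 0 : ℝ)) : ℂ))).rank :=
    (Matrix.rank_mul_le_left _ _).trans (Matrix.rank_mul_le_right _ _)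
  rw [Matrix.rank_diagonal] at h2
  have h3 : Fintype.card {i : Fin n // (((if i.val < m - 1 then 1 else 0 : ℝ)) : ℂ) ≠ 0} ≤
      Fintype.card (Fin (m - 1)) := by
    apply Fintype.card_le_of_injective (fun i => (⟨i.1.val, by
      by_contra hc
      apply i.2
      rw [if_neg hc]
      simp⟩ : Fin (m-1)))
    intro a b hab
    apply Subtype.ext
    apply Fin.ext
    simp only [Fin.mk.injEq] at hab
    exact hab
  rw [Fintype.card_fin] at h3
  omega

theorem Z_diag_30936 {n m : ℕ} (hmn : m < n) (N : Matrix (Fin n) (Fin m) ℂ)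
    (hN : ∀ (k : Fin n) (j : Fin m), N k j = if k.val = j.val then 1 else 0)
    (d : Fin n → ℝ) :
    Z N d = Matrix.diagonal (fun i : Fin m => ((d ⟨i.val, by omega⟩ : ℝ) : ℂ)) := by
  classical
  ext i j
  unfold Z
  rw [Matrix.mul_assoc, Matrix.mul_apply]
  rw [Finset.sum_eq_single (⟨i.val, by omega⟩ : Fin n)]
  · rw [Matrix.diagonal_mul, Matrix.conjTranspose_apply, hN, hN, Matrix.diagonal_apply]
    simp only [if_true, star_one, one_mul]
    by_cases hij : i = j
    · rw [if_pos hij, if_pos (by rw [hij]), mul_one]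
    · rw [if_neg hij, if_neg (fun h => hij (Fin.ext h)), mul_zero]
  · intro b _ hb
    rw [Matrix.conjTranspose_apply, hN, if_neg, star_zero, zero_mul]
    intro h
    exact hb (Fin.ext h)
  · intro h; exact absurd (Finset.mem_univ _) h

theorem upd_30936 {m : ℕ} (p q : Fin m → ℂ) (i : Fin m) :
    ((Matrix.diagonal p).updateRow i ((Matrix.diagonal q) i)).det =
      q i * ∏ j ∈ Finset.univ.erase i, p j := by
  classical
  have h : (Matrix.diagonal p).updateRow i ((Matrix.diagonal q) i) =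
      Matrix.diagonal (Function.update p i (q i)) := by
    ext a b
    by_cases ha : a = i
    · subst ha
      rw [Matrix.updateRow_self, Matrix.diagonal_apply, Matrix.diagonal_apply, Function.update_self]
    · rw [Matrix.updateRow_ne ha, Matrix.diagonal_apply, Matrix.diagonal_apply,
        Function.update_of_ne ha]
  rw [h, Matrix.det_diagonal, ← Finset.mul_prod_erase _ _ (Finset.mem_univ i), Function.update_self]
  congr 1
  apply Finset.prod_congr rfl
  intro j hj
  rw [Function.update_of_ne (Finset.ne_of_mem_erase hj)]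

/-- Evaluation when the columns of `N` are the first `m` unit vectors. -/
theorem Z_eval {n m : ℕ} (hm : 1 ≤ m) (hmn : m < n) (N : Matrix (Fin n) (Fin m) ℂ)
    (hN : ∀ (k : Fin n) (j : Fin m), N k j = if k.val = j.val then 1 else 0)
    (q : Fin n → ℝ) :
    ∑ i, ((Z N (fun k => if k.val < m - 1 then 1 else 0)).updateRow i
      ((Z N (fun k => if k.val < m - 1 then 0 else q k)) i)).det =
        ((q ⟨m - 1, by omega⟩ : ℝ) : ℂ) := by
  rw [Z_diag_30936 hmn N hN, Z_diag_30936 hmn N hN]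
  simp only [upd_30936]
  rw [Finset.sum_eq_single (⟨m - 1, by omega⟩ : Fin m)]
  · simp only [lt_irrefl, if_false]
    rw [Finset.prod_eq_one, mul_one]
    intro j hj
    have hj1 : j.val ≠ m - 1 := fun h => (Finset.ne_of_mem_erase hj) (Fin.ext h)
    have hj2 : j.val < m - 1 := by have := j.isLt; omega
    rw [if_pos hj2, Complex.ofReal_one]
  · intro b _ hb
    have hj1 : b.val ≠ m - 1 := fun h => hb (Fin.ext h)
    have hj2 : b.val < m - 1 := by have := b.isLt; omega
    rw [if_pos hj2, Complex.ofReal_zero, zero_mul]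
  · intro h; exact absurd (Finset.mem_univ _) h

/-- A choice of `t` which makes the degenerate bound strictly smaller. -/
theorem exists_t (m : ℕ) (hm : 1 ≤ m) : ∃ t : ℝ, 0 < t ∧
    (2 + t + 1 / t) ^ (m - 1) * ((1 + t) * 3 + (1 + 1 / t) * 1) < 4 ^ (m - 1) * 8 := by
  by_contra hcon
  push Not at hcon
  have hloc : IsLocalMin (fun t : ℝ => (2 + t + 1 / t) ^ (m - 1) * ((1 + t) * 3 + (1 + 1 / t) * 1)) 1 := by
    filter_upwards [Ioi_mem_nhds (zero_lt_one (α := ℝ))] with t ht
    have h1 := hcon t ht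
    norm_num at h1 ⊢
    exact h1
  have hinv : HasDerivAt (fun t : ℝ => 1 / t) (-1) 1 := by
    have h1 := hasDerivAt_inv (one_ne_zero (α := ℝ))
    simp only [one_pow, inv_one] at h1
    simpa only [one_div] using h1
  have hg : HasDerivAt (fun t : ℝ => 2 + t + 1 / t) (1 + -1) 1 :=
    ((hasDerivAt_id (1:ℝ)).const_add 2).add hinv
  have hg2 := hg.pow (m - 1)
  have hk : HasDerivAt (fun t : ℝ => (1 + t) * 3 + (1 + 1 / t) * 1) (1 * 3 + -1 * 1) 1 :=
    (((hasDerivAt_id (1:ℝ)).const_add 1).mul_const 3).add ((hinv.const_add 1).mul_const 1)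
  have hm := hg2.mul hk
  have hz := hloc.hasDerivAt_eq_zero hm
  norm_num at hz
/-! ### Projections of complex ellipsoids -/

theorem uu {n : ℕ} (φ : Un n) : (φ : Matrix (Fin n) (Fin n) ℂ) * (φ : Matrix (Fin n) (Fin n) ℂ)ᴴ = 1 :=
  Matrix.mem_unitaryGroup_iff.1 φ.2

theorem uu' {n : ℕ} (φ : Un n) : (φ : Matrix (Fin n) (Fin n) ℂ)ᴴ * (φ : Matrix (Fin n) (Fin n) ℂ) = 1 :=
  Matrix.mem_unitaryGroup_iff'.1 φ.2

/-- unitary matrices as isometries -/
noncomputable def isoU {n : ℕ} (φ : Un n) : Cn n ≃ₗᵢ[ℂ] Cn n :=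
  LinearIsometryEquiv.mk
    (LinearEquiv.ofLinearMap (Matrix.toEuclideanLin (φ : Matrix (Fin n) (Fin n) ℂ))
      (Matrix.toEuclideanLin ((φ : Matrix (Fin n) (Fin n) ℂ)ᴴ))
      (by
        ext1 x
        show Matrix.toEuclideanLin (φ : Matrix (Fin n) (Fin n) ℂ)
          (Matrix.toEuclideanLin ((φ : Matrix (Fin n) (Fin n) ℂ)ᴴ) x) = x
        rw [lin_comp, uu, lin_one])
      (by
        ext1 x
        show Matrix.toEuclideanLin ((φ : Matrix (Fin n) (Fin n) ℂ)ᴴ)
          (Matrix.toEuclideanLin (φ : Matrix (Fin n) (Fin n) ℂ) x) = x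
        rw [lin_comp, uu', lin_one]))
    (by
      intro x
      have h := norm_adj ((φ : Matrix (Fin n) (Fin n) ℂ)ᴴ)
        (by rw [conjTranspose_conjTranspose, uu']) x
      rw [conjTranspose_conjTranspose] at h
      exact h)

theorem isoU_apply {n : ℕ} (φ : Un n) (x : Cn n) :
    isoU φ x = Matrix.toEuclideanLin (φ : Matrix (Fin n) (Fin n) ℂ) x := rfl

/-- matrix of an orthonormal basis -/
noncomputable def Emat {n m : ℕ} {E : Submodule ℂ (Cn n)} (e : OrthonormalBasis (Fin m) ℂ E) :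
    Matrix (Fin n) (Fin m) ℂ :=
  Matrix.of fun k j => ((e j : E) : Cn n) k

/-- volume of the complex unit ball of `ℂ^m`. -/
noncomputable def om (m : ℕ) : ℝ := (volume (Metric.closedBall (0 : EuclideanSpace ℂ (Fin m)) 1)).toReal

theorem om_pos (m : ℕ) : 0 < om m := by
  unfold om
  refine ENNReal.toReal_pos ?_ ?_
  · exact (Metric.measure_closedBall_pos volume _ one_pos).ne'
  · exact (isCompact_closedBall _ _).measure_lt_top.ne

/-- the image of a complex subspace under a unitary map, as a complex subspace -/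
noncomputable def mapU {n : ℕ} (E : Submodule ℂ (Cn n)) (φ : Un n) : Submodule ℂ (Cn n) :=
  E.map (Matrix.toEuclideanLin (φ : Matrix (Fin n) (Fin n) ℂ))

theorem map_eq {n : ℕ} (E : Submodule ℂ (Cn n)) (φ : Un n) :
    (E.restrictScalars ℝ).map (act φ) = (mapU E φ).restrictScalars ℝ := by
  ext x
  simp only [mapU, Submodule.mem_map, Submodule.restrictScalars_mem]
  rfl

theorem exists_basis {n m : ℕ} (E : Submodule ℂ (Cn n)) (e : OrthonormalBasis (Fin m) ℂ E)
    (φ : Un n) : ∃ b : OrthonormalBasis (Fin m) ℂ (mapU E φ), ∀ j,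
      ((b j : mapU E φ) : Cn n) =
        Matrix.toEuclideanLin (φ : Matrix (Fin n) (Fin n) ℂ) ((e j : E) : Cn n) :=
  ⟨e.map ((isoU φ).submoduleMap E), fun j => by rw [OrthonormalBasis.map_apply]; rfl⟩

open scoped ComplexOrder in
theorem Z_posSemidef {n m : ℕ} (N : Matrix (Fin n) (Fin m) ℂ) (d : Fin n → ℝ)
    (hd : ∀ k, 0 ≤ d k) : (Z N d).PosSemidef := by
  unfold Z
  apply Matrix.PosSemidef.conjTranspose_mul_mul_same
  apply Matrix.PosSemidef.diagonal
  intro k
  simpa using hd k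

open scoped ComplexOrder in
theorem Z_det_re_nonneg {n m : ℕ} (N : Matrix (Fin n) (Fin m) ℂ) (d : Fin n → ℝ)
    (hd : ∀ k, 0 ≤ d k) : 0 ≤ (Z N d).det.re := by
  have h := (Z_posSemidef N d hd).det_nonneg
  exact (Complex.le_def.1 h).1

theorem vol_congr {n : ℕ} (F G : Submodule ℝ (Cn n)) (h : F = G) (K : Set (Cn n)) :
    volume (F.orthogonalProjectionOnto '' K) = volume (G.orthogonalProjectionOnto '' K) := by
  subst h
  rfl

theorem coord_eq {n m : ℕ} (E : Submodule ℂ (Cn n)) (e : OrthonormalBasis (Fin m) ℂ E)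
    (φ : Un n) (b : OrthonormalBasis (Fin m) ℂ (mapU E φ))
    (hb : ∀ j, ((b j : mapU E φ) : Cn n) =
        Matrix.toEuclideanLin (φ : Matrix (Fin n) (Fin n) ℂ) ((e j : E) : Cn n)) (x : Cn n) :
    (WithLp.toLp 2 (fun j : Fin m => inner ℂ ((b j : mapU E φ) : Cn n) x) :
          EuclideanSpace ℂ (Fin m)) =
      Matrix.toEuclideanLin (((φ : Matrix (Fin n) (Fin n) ℂ) * Emat e)ᴴ) x := by
  ext j
  rw [Matrix.toLpLin_apply]
  simp only [hb]
  rw [Matrix.toLpLin_apply, EuclideanSpace.inner_eq_star_dotProduct]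
  simp only [Matrix.mulVec, dotProduct, conjTranspose_apply, Matrix.mul_apply, Emat, Matrix.of_apply,
    Pi.star_apply]
  apply Finset.sum_congr rfl
  intro k _
  ring

theorem Z_sqrt {n m : ℕ} (N : Matrix (Fin n) (Fin m) ℂ) (d : Fin n → ℝ) (hd : ∀ k, 0 ≤ d k) :
    (Nᴴ * Matrix.diagonal (fun k => ((Real.sqrt (d k) : ℝ) : ℂ))) *
      (Nᴴ * Matrix.diagonal (fun k => ((Real.sqrt (d k) : ℝ) : ℂ)))ᴴ = Z N d := by
  have hD : (Matrix.diagonal (fun k => ((Real.sqrt (d k) : ℝ) : ℂ)) : Matrix (Fin n) (Fin n) ℂ) *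
      (Matrix.diagonal (fun k => ((Real.sqrt (d k) : ℝ) : ℂ)))ᴴ =
      Matrix.diagonal (fun k => ((d k : ℝ) : ℂ)) := by
    rw [diagonal_conjTranspose, diagonal_mul_diagonal]
    congr 1
    funext k
    simp only [Pi.star_apply, RCLike.star_def, Complex.conj_ofReal]
    rw [← Complex.ofReal_mul, Real.mul_self_sqrt (hd k)]
  rw [conjTranspose_mul, conjTranspose_conjTranspose]
  calc Nᴴ * Matrix.diagonal (fun k => ((Real.sqrt (d k) : ℝ) : ℂ)) *
        ((Matrix.diagonal (fun k => ((Real.sqrt (d k) : ℝ) : ℂ)))ᴴ * N)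
      = Nᴴ * (Matrix.diagonal (fun k => ((Real.sqrt (d k) : ℝ) : ℂ)) *
        (Matrix.diagonal (fun k => ((Real.sqrt (d k) : ℝ) : ℂ)))ᴴ) * N := by
          simp only [Matrix.mul_assoc]
    _ = Z N d := by rw [hD]; rfl

theorem shadow_ell {n m : ℕ} (E : Submodule ℂ (Cn n)) (e : OrthonormalBasis (Fin m) ℂ E)
    (d : Fin n → ℝ) (hd : ∀ k, 0 ≤ d k) (φ : Un n) :
    volume (((E.restrictScalars ℝ).map (act φ)).orthogonalProjectionOnto '' (ell d)) =
      ENNReal.ofReal ((Z ((φ : Matrix (Fin n) (Fin n) ℂ) * Emat e) d).det.re) *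
        volume (Metric.closedBall (0 : EuclideanSpace ℂ (Fin m)) 1) := by
  rw [vol_congr _ _ (map_eq E φ)]
  obtain ⟨b, hb⟩ := exists_basis E e φ
  rw [shadow_eq _ b _]
  have h1 : ((fun x : EuclideanSpace ℂ (Fin n) =>
        (WithLp.toLp 2 (fun j : Fin m => inner ℂ ((b j : mapU E φ) : EuclideanSpace ℂ (Fin n)) x) :
          EuclideanSpace ℂ (Fin m))) '' (ell d)) =
      (Matrix.toEuclideanLin ((((φ : Matrix (Fin n) (Fin n) ℂ) * Emat e)ᴴ *
        Matrix.diagonal (fun k => ((Real.sqrt (d k) : ℝ) : ℂ))) : Matrix (Fin m) (Fin n) ℂ)) ''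
          Metric.closedBall (0 : EuclideanSpace ℂ (Fin n)) 1 := by
    unfold ell
    rw [Set.image_image]
    apply Set.image_congr
    intro x hx
    rw [coord_eq E e φ b hb, lin_comp]
  rw [h1, vol_image, Z_sqrt _ d hd]

theorem shadow_ell' {n m : ℕ} (E : Submodule ℂ (Cn n)) (e : OrthonormalBasis (Fin m) ℂ E)
    (d : Fin n → ℝ) (hd : ∀ k, 0 ≤ d k) (φ : Un n) :
    shadow (ell d) ((E.restrictScalars ℝ).map (act φ)) =
      ((Z ((φ : Matrix (Fin n) (Fin n) ℂ) * Emat e) d).det.re) * om m := by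
  rw [shadow_def, shadow_ell E e d hd φ, ENNReal.toReal_mul, ENNReal.toReal_ofReal (Z_det_re_nonneg _ _ hd)]
  rfl

theorem shadow_mono {n m : ℕ} (E : Submodule ℂ (Cn n)) (e : OrthonormalBasis (Fin m) ℂ E)
    (d : Fin n → ℝ) (hd : ∀ k, 0 ≤ d k) (φ : Un n) (K : Set (Cn n)) (hK : K ⊆ ell d) :
    shadow K ((E.restrictScalars ℝ).map (act φ)) ≤
      ((Z ((φ : Matrix (Fin n) (Fin n) ℂ) * Emat e) d).det.re) * om m := by
  rw [← shadow_ell' E e d hd φ]
  rw [shadow_def, shadow_def]
  apply ENNReal.toReal_mono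
  · rw [shadow_ell E e d hd φ]
    exact ENNReal.mul_ne_top ENNReal.ofReal_ne_top (isCompact_closedBall _ _).measure_lt_top.ne
  · exact measure_mono (Set.image_mono hK)

/-! ### Haar measure and symmetry -/

instance instHaar (n : ℕ) : (haarU n).IsHaarMeasure := by
  unfold haarU; infer_instance

instance instProb (n : ℕ) : IsProbabilityMeasure (haarU n) := by
  refine ⟨?_⟩
  have h := Measure.haarMeasure_self (K₀ := (⊤ : TopologicalSpace.PositiveCompacts (Un n)))
  rw [TopologicalSpace.PositiveCompacts.coe_top] at h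
  exact h

/-- the unitary permutation matrix -/
noncomputable def permU {n : ℕ} (σ : Equiv.Perm (Fin n)) : Un n :=
  ⟨σ.permMatrix ℂ, by
    rw [Matrix.mem_unitaryGroup_iff, star_eq_conjTranspose, conjTranspose_permMatrix,
      ← permMatrix_mul, inv_mul_cancel, permMatrix_one]⟩

theorem permU_mul {n m : ℕ} (σ : Equiv.Perm (Fin n)) (M : Matrix (Fin n) (Fin m) ℂ) :
    ((permU σ : Un n) : Matrix (Fin n) (Fin n) ℂ) * M = M.submatrix σ id :=
  PEquiv.toMatrix_toPEquiv_mul σ M

theorem Z_apply {n m : ℕ} (N : Matrix (Fin n) (Fin m) ℂ) (d : Fin n → ℝ) (i j : Fin m) :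
    Z N d i j = ∑ k, star (N k i) * ((d k : ℝ) : ℂ) * N k j := by
  unfold Z
  rw [Matrix.mul_apply]
  apply Finset.sum_congr rfl
  intro k _
  rw [Matrix.mul_diagonal, conjTranspose_apply]

theorem Z_perm {n m : ℕ} (σ : Equiv.Perm (Fin n)) (N : Matrix (Fin n) (Fin m) ℂ) (d : Fin n → ℝ) :
    Z (N.submatrix σ id) d = Z N (fun k => d (σ.symm k)) := by
  ext i j
  rw [Z_apply, Z_apply]
  simp only [submatrix_apply, id]
  rw [← Equiv.sum_comp σ (fun k => star (N k i) * ((d (σ.symm k) : ℝ) : ℂ) * N k j)]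
  simp

theorem int_perm {n m : ℕ} (σ : Equiv.Perm (Fin n)) (W : Matrix (Fin n) (Fin m) ℂ)
    (G : Matrix (Fin n) (Fin m) ℂ → ℝ) :
    ∫ φ : Un n, G (((φ : Matrix (Fin n) (Fin n) ℂ) * W).submatrix σ id) ∂(haarU n) =
      ∫ φ : Un n, G ((φ : Matrix (Fin n) (Fin n) ℂ) * W) ∂(haarU n) := by
  rw [← integral_mul_left_eq_self (fun φ : Un n => G ((φ : Matrix (Fin n) (Fin n) ℂ) * W))
    (permU σ)]
  apply integral_congr_ae
  filter_upwards with φ
  rw [← permU_mul, ← Matrix.mul_assoc]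
  rfl

theorem Z_lin {n m : ℕ} (N : Matrix (Fin n) (Fin m) ℂ) (r s : ℝ) (d b : Fin n → ℝ) :
    Z N (fun k => r * d k + s * b k) = (r : ℂ) • Z N d + (s : ℂ) • Z N b := by
  ext i j
  rw [Matrix.add_apply, Matrix.smul_apply, Matrix.smul_apply, Z_apply, Z_apply, Z_apply]
  simp only [smul_eq_mul, Finset.mul_sum, ← Finset.sum_add_distrib]
  apply Finset.sum_congr rfl
  intro k _
  push_cast
  ring

theorem Z_cont {n m : ℕ} (W : Matrix (Fin n) (Fin m) ℂ) (d : Fin n → ℝ) :
    Continuous (fun φ : Un n => Z ((φ : Matrix (Fin n) (Fin n) ℂ) * W) d) := by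
  have h : Continuous (fun φ : Un n => ((φ : Matrix (Fin n) (Fin n) ℂ) * W)) :=
    continuous_subtype_val.matrix_mul continuous_const
  exact (h.matrix_conjTranspose.matrix_mul continuous_const).matrix_mul h

/-! ### The main argument -/

/-- degenerate part -/
def dg {n : ℕ} (m : ℕ) : Fin n → ℝ := fun k => if k.val < m - 1 then 1 else 0

/-- tail part -/
def tl {n : ℕ} (m : ℕ) (q : Fin n → ℝ) : Fin n → ℝ := fun k => if k.val < m - 1 then 0 else q k

/-- full semi-axes -/
def dd {n : ℕ} (m : ℕ) (ε : ℝ) (q : Fin n → ℝ) : Fin n → ℝ :=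
  fun k => if k.val < m - 1 then 1 else ε * q k

/-- first choice of semi-axes -/
def qa {n : ℕ} (m : ℕ) : Fin n → ℝ := fun k => if k.val = m - 1 then 3 else 1

/-- second choice of semi-axes -/
def qb {n : ℕ} (m : ℕ) : Fin n → ℝ := fun k => if k.val = m then 3 else 1

/-- combination -/
noncomputable def qt {n : ℕ} (m : ℕ) (t : ℝ) : Fin n → ℝ :=
  fun k => (1 + t) * qa m k + (1 + 1 / t) * qb m k

theorem qa_pos {n m : ℕ} (k : Fin n) : 0 < (qa m k : ℝ) := by
  unfold qa; split_ifs <;> norm_num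

theorem qb_pos {n m : ℕ} (k : Fin n) : 0 < (qb m k : ℝ) := by
  unfold qb; split_ifs <;> norm_num

theorem dd_pos {n m : ℕ} (ε : ℝ) (hε : 0 < ε) (q : Fin n → ℝ) (hq : ∀ k, 0 < q k) (k : Fin n) :
    0 < dd m ε q k := by
  unfold dd; split_ifs
  · norm_num
  · exact mul_pos hε (hq k)

theorem Z_dd {n m : ℕ} (N : Matrix (Fin n) (Fin m) ℂ) (ε : ℝ) (q : Fin n → ℝ) :
    Z N (dd m ε q) = Z N (dg m) + (ε : ℂ) • Z N (tl m q) := by
  have h := Z_lin N 1 ε (dg m) (tl m q)
  rw [Complex.ofReal_one, one_smul] at h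
  rw [← h]
  congr 1
  funext k
  unfold dd dg tl
  split_ifs <;> simp

theorem Z_comb {n m : ℕ} (N : Matrix (Fin n) (Fin m) ℂ) (ε t : ℝ) :
    Z N (fun k => (1 + t) * dd m ε (qa m) k + (1 + 1 / t) * dd m ε (qb m) k) =
      ((2 + t + 1 / t : ℝ) : ℂ) • Z N (dg m) + (ε : ℂ) • Z N (tl m (qt m t)) := by
  rw [← Z_lin]
  congr 1
  funext k
  unfold dd dg tl qt
  split_ifs
  · ring
  · ring

/-- the diagonal sum -/
noncomputable def SS {n m : ℕ} (N : Matrix (Fin n) (Fin m) ℂ) (q : Fin n → ℝ) : ℂ :=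
  ∑ i, ((Z N (dg m)).updateRow i ((Z N (tl m q)) i)).det

theorem swap_fix {n m : ℕ} (hmn : m < n) (hm : 1 ≤ m) (k : Fin n) :
    ((Equiv.swap (⟨m - 1, by omega⟩ : Fin n) ⟨m, hmn⟩) k).val =
      if k.val = m - 1 then m else if k.val = m then m - 1 else k.val := by
  rw [Equiv.swap_apply_def]
  by_cases h1 : k.val = m - 1
  · rw [if_pos (Fin.ext h1), if_pos h1]
  · rw [if_neg (fun h => h1 (congrArg Fin.val h)), if_neg h1]
    by_cases h2 : k.val = m
    · rw [if_pos (Fin.ext h2), if_pos h2]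
    · rw [if_neg (fun h => h2 (congrArg Fin.val h)), if_neg h2]

theorem SS_swap {n m : ℕ} (hmn : m < n) (hm : 1 ≤ m) (N : Matrix (Fin n) (Fin m) ℂ) :
    SS (N.submatrix (Equiv.swap (⟨m - 1, by omega⟩ : Fin n) ⟨m, hmn⟩) id) (qa m) =
      SS N (qb m) := by
  unfold SS
  rw [Z_perm, Z_perm]
  have h1 : (fun k => dg m ((Equiv.swap (⟨m - 1, by omega⟩ : Fin n) ⟨m, hmn⟩).symm k)) =
      (dg m : Fin n → ℝ) := by
    funext k
    rw [Equiv.symm_swap]
    unfold dg
    rw [swap_fix hmn hm]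
    split_ifs <;> first | rfl | omega
  have h2 : (fun k => tl m (qa m) ((Equiv.swap (⟨m - 1, by omega⟩ : Fin n) ⟨m, hmn⟩).symm k)) =
      (tl m (qb m) : Fin n → ℝ) := by
    funext k
    rw [Equiv.symm_swap]
    unfold tl qa qb
    rw [swap_fix hmn hm]
    split_ifs <;> first | rfl | omega
  rw [h1, h2]

theorem dd_swap {n m : ℕ} (hmn : m < n) (hm : 1 ≤ m) (ε : ℝ) :
    (fun k => dd m ε (qa m) ((Equiv.swap (⟨m - 1, by omega⟩ : Fin n) ⟨m, hmn⟩).symm k)) =
      (dd m ε (qb m) : Fin n → ℝ) := by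
  funext k
  rw [Equiv.symm_swap]
  unfold dd qa qb
  rw [swap_fix hmn hm]
  split_ifs <;> first | rfl | omega

/-- volume functional on an ellipsoid -/
theorem V_ell {n m : ℕ} (E : Submodule ℂ (Cn n)) (e : OrthonormalBasis (Fin m) ℂ E)
    (d : Fin n → ℝ) (hd : ∀ k, 0 ≤ d k) :
    V (E.restrictScalars ℝ) (ell d) =
      ∫ φ : Un n, ((Z ((φ : Matrix (Fin n) (Fin n) ℂ) * Emat e) d).det.re) * om m ∂(haarU n) := by
  rw [V_def]
  apply integral_congr_ae
  filter_upwards with φ
  exact shadow_ell' E e d hd φ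

theorem V_nonneg {n : ℕ} (E : Submodule ℝ (Cn n)) (K : Set (Cn n)) : 0 ≤ V E K :=
  integral_nonneg fun _ => ENNReal.toReal_nonneg

theorem V_swap {n m : ℕ} (hmn : m < n) (hm : 1 ≤ m) (E : Submodule ℂ (Cn n))
    (e : OrthonormalBasis (Fin m) ℂ E) (ε : ℝ) (hε : 0 < ε) :
    V (E.restrictScalars ℝ) (ell (dd m ε (qb m))) = V (E.restrictScalars ℝ) (ell (dd m ε (qa m))) := by
  rw [V_ell E e _ (fun k => (dd_pos ε hε _ qb_pos k).le),
    V_ell E e _ (fun k => (dd_pos ε hε _ qa_pos k).le)]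
  rw [← int_perm (Equiv.swap (⟨m - 1, by omega⟩ : Fin n) ⟨m, hmn⟩) (Emat e)
    (fun N => ((Z N (dd m ε (qa m))).det.re) * om m)]
  simp only [Z_perm]
  rw [dd_swap hmn hm]

theorem bm_pow {m : ℕ} (hm : 1 ≤ m) (v w : ℝ) (hv : 0 ≤ v) (hw : 0 ≤ w)
    (h : v ^ (1 / ((2 * m : ℕ) : ℝ)) + v ^ (1 / ((2 * m : ℕ) : ℝ)) ≤ w ^ (1 / ((2 * m : ℕ) : ℝ))) :
    4 ^ m * v ≤ w := by
  have h0 : (2 * m) ≠ 0 := by omega
  have h1 : (v ^ (1 / ((2 * m : ℕ) : ℝ)) + v ^ (1 / ((2 * m : ℕ) : ℝ))) ^ (2 * m) ≤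
      (w ^ (1 / ((2 * m : ℕ) : ℝ))) ^ (2 * m) :=
    pow_le_pow_left₀ (by positivity) h _
  rw [one_div, Real.rpow_inv_natCast_pow hw h0, ← two_mul, mul_pow,
    Real.rpow_inv_natCast_pow hv h0, pow_mul] at h1
  norm_num at h1
  exact h1

theorem main {n m : ℕ} (hm : 1 ≤ m) (hmn : m < n) (E : Submodule ℂ (Cn n))
    (e : OrthonormalBasis (Fin m) ℂ E) (hi : finrank ℝ (E.restrictScalars ℝ) = 2 * m)
    (hBM : BM (E.restrictScalars ℝ)) : False := by
  obtain ⟨F, hFc, hF1, hF2⟩ := det_expand m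
  obtain ⟨t, ht, htt⟩ := exists_t m hm
  have hdet0 : ∀ N : Matrix (Fin n) (Fin m) ℂ, (Z N (dg m)).det = 0 := fun N => Z_det_zero hm N
  -- functions
  let N : Un n → Matrix (Fin n) (Fin m) ℂ := fun φ => (φ : Matrix (Fin n) (Fin n) ℂ) * Emat e
  let f : ℝ × Un n → ℝ := fun x => (F (x.1, Z (N x.2) (dg m), Z (N x.2) (tl m (qa m)))).re
  let G : ℝ → ℝ × Un n → ℝ := fun s x =>
    (F (x.1, ((2 + s + 1 / s : ℝ) : ℂ) • Z (N x.2) (dg m), Z (N x.2) (tl m (qt m s)))).re
  have hZc : ∀ d : Fin n → ℝ, Continuous (fun x : ℝ × Un n => Z (N x.2) d) := fun d =>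
    (Z_cont (Emat e) d).comp continuous_snd
  have hf : Continuous f :=
    Complex.continuous_re.comp (hFc.comp (continuous_fst.prodMk ((hZc _).prodMk (hZc _))))
  have hG : ∀ s, Continuous (G s) := by
    intro s
    have h1 : Continuous (fun x : ℝ × Un n => ((2 + s + 1 / s : ℝ) : ℂ) • Z (N x.2) (dg m)) := by
      have h2 := (hZc (dg m)).const_smul ((2 + s + 1 / s : ℝ) : ℂ)
      exact h2
    exact Complex.continuous_re.comp (hFc.comp (continuous_fst.prodMk (h1.prodMk (hZc _))))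
  -- value at zero
  have hG0 : ∀ s : ℝ, 0 < s → ∀ φ : Un n,
      G s (0, φ) = (2 + s + 1 / s) ^ (m - 1) * (SS (N φ) (qt m s)).re := by
    intro s hs φ
    show (F (0, ((2 + s + 1 / s : ℝ) : ℂ) • Z (N φ) (dg m), Z (N φ) (tl m (qt m s)))).re = _
    rw [hF2, updateRow_smul _ (by
      have : (0 : ℝ) < 2 + s + 1 / s := by positivity
      exact_mod_cast this.ne')]
    rw [← Complex.ofReal_pow, Complex.re_ofReal_mul]
    rfl
  have hf0 : ∀ φ : Un n, f (0, φ) = (SS (N φ) (qa m)).re := by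
    intro φ
    show (F (0, Z (N φ) (dg m), Z (N φ) (tl m (qa m)))).re = _
    rw [hF2]
    rfl
  have hSSlin : ∀ s : ℝ, ∀ φ : Un n, SS (N φ) (qt m s) =
      ((1 + s : ℝ) : ℂ) * SS (N φ) (qa m) + ((1 + 1 / s : ℝ) : ℂ) * SS (N φ) (qb m) := by
    intro s φ
    unfold SS
    rw [← updateRow_lin]
    have h : Z (N φ) (tl m (qt m s)) = ((1 + s : ℝ) : ℂ) • Z (N φ) (tl m (qa m)) +
        ((1 + 1 / s : ℝ) : ℂ) • Z (N φ) (tl m (qb m)) := by
      rw [← Z_lin]
      congr 1
      funext k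
      unfold tl qt
      split_ifs <;> simp
    rw [h]
  -- H0
  have hSSi : ∀ q : Fin n → ℝ, Integrable (fun φ : Un n => (SS (N φ) q).re) (haarU n) := by
    intro q
    have hc : Continuous (fun φ : Un n => (SS (N φ) q).re) := by
      have h1 : Continuous (fun φ : Un n =>
          (F (0, Z (N φ) (dg m), Z (N φ) (tl m q))).re) :=
        Complex.continuous_re.comp (hFc.comp (continuous_const.prodMk
          ((Z_cont (Emat e) _).prodMk (Z_cont (Emat e) _))))
      have h2 : (fun φ : Un n => (F (0, Z (N φ) (dg m), Z (N φ) (tl m q))).re) =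
          fun φ : Un n => (SS (N φ) q).re := by
        funext φ
        rw [hF2]
        rfl
      rwa [h2] at h1
    exact hc.integrable_of_hasCompactSupport (HasCompactSupport.of_compactSpace _)
  have hswap : ∫ φ : Un n, (SS (N φ) (qb m)).re ∂(haarU n) =
      ∫ φ : Un n, (SS (N φ) (qa m)).re ∂(haarU n) := by
    have h := int_perm (Equiv.swap (⟨m - 1, by omega⟩ : Fin n) ⟨m, hmn⟩) (Emat e)
      (fun N => (SS N (qa m)).re)
    simp only [SS_swap hmn hm] at h
    exact h
  have H0 : ∫ φ : Un n, G 1 (0, φ) ∂(haarU n) = 4 ^ m * ∫ φ : Un n, f (0, φ) ∂(haarU n) := by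
    have h1 : ∀ φ : Un n, G 1 (0, φ) =
        4 ^ (m - 1) * (2 * (SS (N φ) (qa m)).re + 2 * (SS (N φ) (qb m)).re) := by
      intro φ
      rw [hG0 1 one_pos, hSSlin, Complex.add_re, Complex.re_ofReal_mul, Complex.re_ofReal_mul]
      norm_num
    simp only [h1, hf0]
    rw [integral_const_mul, integral_add ((hSSi _).const_mul _) ((hSSi _).const_mul _),
      integral_const_mul, integral_const_mul, hswap]
    obtain ⟨l, rfl⟩ : ∃ l, m = l + 1 := ⟨m - 1, by omega⟩
    simp only [Nat.add_sub_cancel]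
    ring
  have H : ∀ ε : ℝ, 0 < ε → ε ≤ 1 →
      4 ^ m * ∫ φ : Un n, f (ε, φ) ∂(haarU n) ≤
        ∫ φ : Un n, min (G 1 (ε, φ)) (G t (ε, φ)) ∂(haarU n) := by
    intro ε hε _
    have hda : ∀ k : Fin n, 0 < dd m ε (qa m) k := dd_pos ε hε _ qa_pos
    have hdb : ∀ k : Fin n, 0 < dd m ε (qb m) k := dd_pos ε hε _ qb_pos
    have hV1 : V (E.restrictScalars ℝ) (ell (dd m ε (qa m))) =
        om m * ε * ∫ φ : Un n, f (ε, φ) ∂(haarU n) := by
      rw [V_ell E e _ (fun k => (hda k).le), ← integral_const_mul]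
      apply integral_congr_ae
      filter_upwards with φ
      rw [Z_dd, hF1, hdet0, zero_add, Complex.re_ofReal_mul]
      show ε * f (ε, φ) * om m = _
      ring
    have hV2 := V_swap hmn hm E e ε hε
    have hsh : ∀ s : ℝ, 0 < s → ∀ φ : Un n,
        shadow (ell (dd m ε (qa m)) + ell (dd m ε (qb m))) ((E.restrictScalars ℝ).map (act φ)) ≤
          om m * ε * G s (ε, φ) := by
      intro s hs φ
      have h1 := shadow_mono E e (fun k => (1 + s) * dd m ε (qa m) k + (1 + 1 / s) * dd m ε (qb m) k)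
        (fun k => by have := hda k; have := hdb k; positivity) φ _ (ell_add _ _ hda hdb s hs)
      rw [Z_comb, hF1, det_smul, hdet0, mul_zero, zero_add, Complex.re_ofReal_mul] at h1
      refine h1.trans (le_of_eq ?_)
      show ε * G s (ε, φ) * om m = _
      ring
    have hV3 : V (E.restrictScalars ℝ) (ell (dd m ε (qa m)) + ell (dd m ε (qb m))) ≤
        om m * ε * ∫ φ : Un n, min (G 1 (ε, φ)) (G t (ε, φ)) ∂(haarU n) := by
      rw [← integral_const_mul]
      rw [V_def]
      apply integral_mono_of_nonneg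
      · filter_upwards with φ
        exact ENNReal.toReal_nonneg
      · have hc : Continuous (fun φ : Un n => om m * ε * min (G 1 (ε, φ)) (G t (ε, φ))) :=
          continuous_const.mul (((hG 1).comp (continuous_const.prodMk continuous_id)).min
            ((hG t).comp (continuous_const.prodMk continuous_id)))
        exact hc.integrable_of_hasCompactSupport (HasCompactSupport.of_compactSpace _)
      · filter_upwards with φ
        have hoe : 0 < om m * ε := mul_pos (om_pos m) hε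
        rw [mul_min_of_nonneg _ _ hoe.le]
        exact le_min (hsh 1 one_pos φ) (hsh t ht φ)
    have hb := hBM _ _ (ell_body _ hda) (ell_body _ hdb)
    rw [hV2, hi] at hb
    have hb2 := bm_pow hm _ _ (V_nonneg _ _) (V_nonneg _ _) hb
    have hb3 := hb2.trans hV3
    rw [hV1] at hb3
    have hoe : 0 < om m * ε := mul_pos (om_pos m) hε
    have hb4 : om m * ε * (4 ^ m * ∫ φ : Un n, f (ε, φ) ∂(haarU n)) ≤
        om m * ε * ∫ φ : Un n, min (G 1 (ε, φ)) (G t (ε, φ)) ∂(haarU n) := by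
      refine le_trans (le_of_eq ?_) hb3
      ring
    exact le_of_mul_le_mul_left hb4 hoe
  have key := limit (haarU n) (4 ^ m) f (G 1) (G t) hf (hG 1) (hG t) H H0
  obtain ⟨φ, hφ⟩ := exists_unitary hmn.le (fun j => ((e j : E) : Cn n))
    (e.orthonormal.comp_linearIsometry E.subtypeₗᵢ)
  have hN : ∀ (k : Fin n) (j : Fin m), N φ k j = if k.val = j.val then 1 else 0 := by
    intro k j
    have h := congrArg (fun v : Cn n => v k) (hφ j)
    simp only at h
    rw [Matrix.toLpLin_apply] at h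
    have h2 : N φ k j = ((φ : Matrix (Fin n) (Fin n) ℂ) *ᵥ ((e j : E) : Cn n).ofLp) k := by
      show (((φ : Matrix (Fin n) (Fin n) ℂ) * Emat e) k j) = _
      rw [Matrix.mul_apply]
      rfl
    rw [h2]
    refine Eq.trans h ?_
    rw [PiLp.single_apply]
    by_cases hk : k.val = j.val
    · rw [if_pos hk, if_pos (Fin.ext hk)]
    · rw [if_neg hk, if_neg (fun hh => hk (congrArg Fin.val hh))]
  have hSS : ∀ q : Fin n → ℝ, SS (N φ) q = ((q ⟨m - 1, by omega⟩ : ℝ) : ℂ) :=
    fun q => Z_eval hm hmn (N φ) hN q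
  have hk := key φ
  rw [hG0 1 one_pos, hG0 t ht, hSS, hSS, Complex.ofReal_re, Complex.ofReal_re] at hk
  have hqt : ∀ s : ℝ, (qt m s : Fin n → ℝ) ⟨m - 1, by omega⟩ = (1 + s) * 3 + (1 + 1 / s) * 1 := by
    intro s
    have h1 : (qa m : Fin n → ℝ) ⟨m - 1, by omega⟩ = 3 := if_pos rfl
    have h2 : (qb m : Fin n → ℝ) ⟨m - 1, by omega⟩ = 1 :=
      if_neg (by show ¬ (m - 1 = m); omega)
    unfold qt
    rw [h1, h2]
  rw [hqt, hqt] at hk
  norm_num at hk htt
  linarith

theorem integrable_shadow0 {n : ℕ} (E : Submodule ℂ (Cn n)) (K : Set (Cn n)) (hK : IsCompact K) :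
    Integrable (fun φ : Un n => shadow K ((E.restrictScalars ℝ).map (act φ))) (haarU n) := by
  have e : OrthonormalBasis (Fin (finrank ℂ E)) ℂ E := stdOrthonormalBasis ℂ E
  let T : Un n → Cn n → EuclideanSpace ℂ (Fin (finrank ℂ E)) := fun φ x =>
    Matrix.toEuclideanLin (((φ : Matrix (Fin n) (Fin n) ℂ) * Emat e)ᴴ) x
  have hT : ∀ φ : Un n, shadow K ((E.restrictScalars ℝ).map (act φ)) =
      (volume (T φ '' K)).toReal := by
    intro φ
    rw [shadow_def]
    rw [vol_congr _ _ (map_eq E φ)]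
    obtain ⟨b, hb⟩ := exists_basis E e φ
    rw [shadow_eq _ b _]
    congr 2
    apply Set.image_congr
    intro x _
    exact coord_eq E e φ b hb x
  have hTc : Continuous (fun p : Un n × Cn n => T p.1 p.2) := by
    have h1 : Continuous (fun p : Un n × Cn n =>
        (((p.1 : Matrix (Fin n) (Fin n) ℂ) * Emat e)ᴴ *ᵥ p.2.ofLp)) := by
      refine Continuous.matrix_mulVec ?_ ?_
      · exact ((continuous_subtype_val.comp continuous_fst).matrix_mul
          continuous_const).matrix_conjTranspose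
      · exact (PiLp.continuous_ofLp 2 _).comp continuous_snd
    have h2 : (fun p : Un n × Cn n => T p.1 p.2) = fun p : Un n × Cn n =>
        WithLp.toLp 2 (((p.1 : Matrix (Fin n) (Fin n) ℂ) * Emat e)ᴴ *ᵥ p.2.ofLp) := by
      funext p
      exact Matrix.toLpLin_apply _ _ _ _
    rw [h2]
    exact (PiLp.continuous_toLp 2 _).comp h1
  let S : Set (Un n × EuclideanSpace ℂ (Fin (finrank ℂ E))) :=
    (fun p : Un n × Cn n => (p.1, T p.1 p.2)) '' (Set.univ ×ˢ K)
  have hS : IsCompact S := (isCompact_univ.prod hK).image (continuous_fst.prodMk hTc)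
  have hSe : ∀ φ : Un n, Prod.mk φ ⁻¹' S = T φ '' K := by
    intro φ
    ext y
    constructor
    · rintro ⟨⟨ψ, x⟩, ⟨_, hx⟩, h⟩
      have h1 : ψ = φ := congrArg Prod.fst h
      have h2 : T ψ x = y := congrArg Prod.snd h
      exact ⟨x, hx, by rw [← h1]; exact h2⟩
    · rintro ⟨x, hx, h⟩
      exact ⟨(φ, x), ⟨trivial, hx⟩, by rw [← h]⟩
  have hm : Measurable (fun φ : Un n => volume (Prod.mk φ ⁻¹' S)) :=
    measurable_measure_prodMk_left hS.isClosed.measurableSet
  have hC : IsCompact (Prod.snd '' S) := hS.image continuous_snd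
  have hb : ∀ φ : Un n, volume (T φ '' K) ≤ volume (Prod.snd '' S) := by
    intro φ
    apply measure_mono
    rw [← hSe φ]
    intro y hy
    exact ⟨(φ, y), hy, rfl⟩
  have hfun : (fun φ : Un n => shadow K ((E.restrictScalars ℝ).map (act φ))) =
      fun φ : Un n => (volume (Prod.mk φ ⁻¹' S)).toReal := by
    funext φ
    rw [hT, hSe]
  rw [hfun]
  refine Integrable.of_bound hm.ennreal_toReal.aestronglyMeasurable
    (volume (Prod.snd '' S)).toReal ?_
  filter_upwards with φ
  rw [Real.norm_eq_abs, abs_of_nonneg ENNReal.toReal_nonneg, hSe]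
  exact ENNReal.toReal_mono hC.measure_lt_top.ne (hb φ)

/-- a real subspace that is closed under multiplication by `i`, as a complex subspace -/
def cx {n : ℕ} (E : Submodule ℝ (Cn n)) (hE : ∀ x ∈ E, Complex.I • x ∈ E) :
    Submodule ℂ (Cn n) where
  carrier := E
  add_mem' := fun ha hb => E.add_mem ha hb
  zero_mem' := E.zero_mem
  smul_mem' := fun c x hx => by
    have h : c • x = c.re • x + c.im • (Complex.I • x) := by
      ext k
      simp only [PiLp.smul_apply, PiLp.add_apply, smul_eq_mul, Complex.real_smul]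
      conv_lhs => rw [← Complex.re_add_im c]
      ring
    rw [h]
    exact E.add_mem (E.smul_mem _ hx) (E.smul_mem _ (hE x hx))

theorem cx_eq {n : ℕ} (E : Submodule ℝ (Cn n)) (hE : ∀ x ∈ E, Complex.I • x ∈ E) :
    (cx E hE).restrictScalars ℝ = E := by
  ext x
  rfl

/-- Sanity lemma: for compact `K` and complex `E` the integrand in the definition of `V` is
integrable, so `V` is a genuine average. -/
theorem integrable_shadow {n : ℕ} (E : Submodule ℝ (Cn n)) (hE : ∀ x ∈ E, Complex.I • x ∈ E)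
    (K : Set (Cn n)) (hK : IsCompact K) :
    Integrable (fun φ : Un n => shadow K (imU φ E)) (haarU n) := by
  have h := integrable_shadow0 (cx E hE) K hK
  rw [cx_eq E hE] at h
  simp only [imU_eq]
  exact h

/-- No complex subspace of `C^n` other than `0` and `C^n` has the Brunn-Minkowski property. -/
theorem result : ∀ (n : ℕ) (E : Submodule ℝ (Cn n)), (∀ x ∈ E, Complex.I • x ∈ E) →
    E ≠ ⊥ → E ≠ ⊤ → ¬ BM E := by
  intro n E hE h0 h1 h3
  have hE1 : 1 ≤ finrank ℂ (cx E hE) := by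
    rw [Nat.one_le_iff_ne_zero]
    intro h
    apply h0
    rw [Submodule.finrank_eq_zero] at h
    rw [← cx_eq E hE, h]
    rfl
  have hE2 : finrank ℂ (cx E hE) < n := by
    have h2 : finrank ℂ (cx E hE) < finrank ℂ (Cn n) := by
      apply Submodule.finrank_lt
      intro h
      apply h1
      rw [← cx_eq E hE, h]
      rfl
    rwa [finrank_euclideanSpace_fin] at h2
  have e : OrthonormalBasis (Fin (finrank ℂ (cx E hE))) ℂ (cx E hE) :=
    stdOrthonormalBasis ℂ (cx E hE)
  rw [← cx_eq E hE] at h3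
  exact main hE1 hE2 (cx E hE) e (finrank_real_of_complex (cx E hE)) h3

end Pool.Agent.Results.MP_6cdc09_gt.ComplexSubspaces
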